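import Pool.Agent.H261.DR.Phi

set_option autoImplicit false

/-!
# A nontrivial Dirichlet uniform algebra on the unit interval which is regular on the interval
-/

namespace Pool.Agent.Results.MP_cd0b2b_an.DirichletRegular

/-- There is a uniform algebra on `[0,1]` (uniformly closed, contains the constants, separates the
points) which is nontrivial, Dirichlet on `[0,1]` and regular on `[0,1]`. -/
theorem result : ∃ A : Subalgebra ℂ C(unitInterval, ℂ),
    IsClosed (A : Set C(unitInterval, ℂ)) ∧
    (∀ x y : unitInterval, x ≠ y → ∃ f ∈ A, f x ≠ f y) ∧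
    A ≠ ⊤ ∧
    (∀ g : C(unitInterval, ℝ), ∀ ε : ℝ, 0 < ε → ∃ f ∈ A, ∀ x, |(f x).re - g x| < ε) ∧
    (∀ K : Set unitInterval, IsClosed K → ∀ p : unitInterval, p ∉ K →
      ∃ f ∈ A, f p = 1 ∧ ∀ x ∈ K, f x = 0) :=
  Pool.Agent.H261.DR.exists_dirichlet_regular

end Pool.Agent.Results.MP_cd0b2b_an.DirichletRegular
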